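import Pool.Agent.H457Z.Clu.Main

set_option autoImplicit false

namespace Pool.Agent.Results.MP_03aa11_co.AllIntegral

open Pool.Agent.H457Z.Clu

/-- At a tame `SL_k`-frieze with positive integer values, every cluster variable of `Gr(k,n)` is
defined and takes an integer value. -/
theorem result (k w : ℕ) (hk : 2 ≤ k) (_hw : 1 ≤ w) (M : ℤ → ℤ → ℚ) (hM : IsFrieze k w M)
    (hpos : PositiveIntegerValues w M) :
    (∃ A : Matrix (Fin k) (Fin (w + k + 1)) ℚ, Corresponds A M) ∧
    ∀ A : Matrix (Fin k) (Fin (w + k + 1)) ℚ, Corresponds A M →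
      ∀ x : RatF k w, IsClusterVariable k w x →
        ∃ z : ℤ, HasValue x A z ∧ ∀ q : ℚ, HasValue x A q → q = z :=
  main k w (by omega) M hM hpos

end Pool.Agent.Results.MP_03aa11_co.AllIntegral
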